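import Mathlib

/-!
Local connectivity of graphs: internally disjoint paths, separations, gluing at a vertex.
-/

namespace Pool.Agent.LocalConn

open SimpleGraph

universe u

variable {V : Type u}

/-- `G` contains `m` distinct `x`-`y` paths, no two of which share a vertex other than `x`
and `y`. -/
def HasPaths (G : SimpleGraph V) (x y : V) (m : ℕ) : Prop :=
  ∃ p : Fin m → G.Path x y, Function.Injective p ∧
    ∀ i j, i ≠ j → ∀ v, v ∈ (p i).1.support → v ∈ (p j).1.support → v = x ∨ v = y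

/-- The local connectivity of any two distinct vertices of `G` is at most `k`. -/
def LocalConnLe (G : SimpleGraph V) (k : ℕ) : Prop :=
  ∀ x y, x ≠ y → ∀ m, HasPaths G x y m → m ≤ k

theorem exists_mem_of_walk {G : SimpleGraph V} {A S : Set V}
    (h : ∀ u ∈ A, ∀ v, G.Adj u v → v ∈ A ∨ v ∈ S) {x y : V} (p : G.Walk x y) (hx : x ∈ A)
    (hy : y ∉ A) : ∃ s ∈ p.support, s ∈ S := by
  induction p with
  | nil => exact absurd hx hy
  | cons hadj q ih =>
    rcases h _ hx _ hadj with h1 | h1
    · obtain ⟨s, hs, hs'⟩ := ih h1 hy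
      exact ⟨s, by simp [hs], hs'⟩
    · exact ⟨_, by simp, h1⟩

theorem le_of_sep {G : SimpleGraph V} {x y : V} {A : Set V} {S : Finset V}
    (h : ∀ u ∈ A, ∀ v, G.Adj u v → v ∈ A ∨ v ∈ S) (hx : x ∈ A) (hy : y ∉ A)
    (hxS : x ∉ S) (hyS : y ∉ S) {m : ℕ} (hp : HasPaths G x y m) : m ≤ S.card := by
  obtain ⟨p, -, hd⟩ := hp
  have h1 : ∀ i, ∃ s ∈ (p i).1.support, s ∈ (S : Set V) := fun i =>
    exists_mem_of_walk (S := (S : Set V)) (by simpa using h) (p i).1 hx hy
  choose s hs hs' using h1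
  have hinj : Function.Injective s := by
    intro i j hij
    by_contra hne
    rcases hd i j hne (s i) (hs i) (hij ▸ hs j) with h2 | h2
    · exact hxS (h2 ▸ (by simpa using hs' i))
    · exact hyS (h2 ▸ (by simpa using hs' i))
  have := Finset.card_le_card_of_injOn (s := (Finset.univ : Finset (Fin m))) (t := S) s
    (fun i _ => by simpa using hs' i) (fun i _ j _ h => hinj h)
  simpa using this

theorem eq_cons_nil {G : SimpleGraph V} {x y : V} (hxy : x ≠ y) (p : G.Walk x y)
    (hp : p.IsPath) (h : p.snd = y) : ∃ hadj : G.Adj x y, p = Walk.cons hadj Walk.nil := by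
  cases p with
  | nil => exact absurd rfl hxy
  | cons hadj q =>
    simp only [Walk.snd_cons] at h
    subst h
    rw [Walk.cons_isPath_iff] at hp
    have := Walk.isPath_iff_eq_nil.1 hp.1
    subst this
    exact ⟨hadj, rfl⟩

theorem le_of_nbrs {G : SimpleGraph V} {x y : V} (hxy : x ≠ y) {S : Finset V}
    (h : ∀ v, G.Adj x v → v ∈ S) {m : ℕ} (hp : HasPaths G x y m) : m ≤ S.card := by
  obtain ⟨p, hpi, hd⟩ := hp
  have hnil : ∀ i, ¬ (p i).1.Nil := fun i => Walk.not_nil_of_ne hxy
  have hadj : ∀ i, G.Adj x (p i).1.snd := fun i => Walk.adj_snd (hnil i)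
  have hmem : ∀ i, (p i).1.snd ∈ (p i).1.support := fun i => Walk.getVert_mem_support _ _
  have hinj : Function.Injective (fun i => (p i).1.snd) := by
    intro i j hij
    by_contra hne
    simp only at hij
    rcases hd i j hne _ (hmem i) (hij ▸ hmem j) with h2 | h2
    · exact (hadj i).ne h2.symm
    · obtain ⟨h3, h4⟩ := eq_cons_nil hxy (p i).1 (p i).2 h2
      obtain ⟨h5, h6⟩ := eq_cons_nil hxy (p j).1 (p j).2 (hij ▸ h2)
      exact hne (hpi (Subtype.ext (h4.trans h6.symm)))
  have := Finset.card_le_card_of_injOn (s := (Finset.univ : Finset (Fin m))) (t := S)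
    (fun i => (p i).1.snd) (fun i _ => h _ (hadj i)) (fun i _ j _ h => hinj h)
  simpa using this

theorem HasPaths.symm {G : SimpleGraph V} {x y : V} {m : ℕ} (hp : HasPaths G x y m) :
    HasPaths G y x m := by
  obtain ⟨p, hpi, hd⟩ := hp
  refine ⟨fun i => (p i).reverse, ?_, ?_⟩
  · intro i j hij
    apply hpi
    have := congrArg (fun q : G.Path y x => q.1.reverse) hij
    apply Subtype.ext
    simpa [Path.reverse] using this
  · intro i j hij v hv hv'
    have h1 : v ∈ (p i).1.support := by simpa [Path.reverse] using hv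
    have h2 : v ∈ (p j).1.support := by simpa [Path.reverse] using hv'
    exact (hd i j hij v h1 h2).symm

/-- `x` and `y` are separated in `G` by a separation of order at most `k`. -/
def SepBy (G : SimpleGraph V) (k : ℕ) (x y : V) : Prop :=
  ∃ (A : Set V) (S : Finset V), S.card ≤ k ∧ x ∈ A ∧ y ∉ A ∧ x ∉ S ∧ y ∉ S ∧
    ∀ u ∈ A, ∀ v, G.Adj u v → v ∈ A ∨ v ∈ S

/-- `x` has at most `k` neighbours. -/
def LowDeg (G : SimpleGraph V) (k : ℕ) (x : V) : Prop :=
  ∃ S : Finset V, S.card ≤ k ∧ ∀ v, G.Adj x v → v ∈ S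

theorem localConnLe_of_sep {G : SimpleGraph V} {k : ℕ}
    (h : ∀ x y, x ≠ y → LowDeg G k x ∨ LowDeg G k y ∨ SepBy G k x y) : LocalConnLe G k := by
  intro x y hxy m hm
  rcases h x y hxy with ⟨S, hS, hN⟩ | ⟨S, hS, hN⟩ | ⟨A, S, hS, hx, hy, hxS, hyS, hA⟩
  · exact (le_of_nbrs hxy hN hm).trans hS
  · exact (le_of_nbrs hxy.symm hN hm.symm).trans hS
  · exact (le_of_sep hA hx hy hxS hyS hm).trans hS

theorem HasPaths.map {W : Type*} {G : SimpleGraph V} {G' : SimpleGraph W} (φ : G ≃g G')
    {x y : V} {m : ℕ} (hp : HasPaths G x y m) : HasPaths G' (φ x) (φ y) m := by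
  obtain ⟨p, hpi, hd⟩ := hp
  refine ⟨fun i => (p i).map φ.toHom φ.injective, ?_, ?_⟩
  · intro i j hij
    exact hpi (Path.map_injective φ.injective x y hij)
  · intro i j hij v hv hv'
    have h1 : v ∈ ((p i).1.map φ.toHom).support := hv
    have h2 : v ∈ ((p j).1.map φ.toHom).support := hv'
    rw [Walk.support_map, List.mem_map] at h1 h2
    obtain ⟨a, ha, rfl⟩ := h1
    obtain ⟨b, hb, hab⟩ := h2
    have : b = a := φ.injective hab
    subst this
    rcases hd i j hij b ha hb with h | h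
    · left; rw [h]; rfl
    · right; rw [h]; rfl

theorem LocalConnLe.map {W : Type*} {G : SimpleGraph V} {G' : SimpleGraph W} (φ : G ≃g G')
    {k : ℕ} (h : LocalConnLe G k) : LocalConnLe G' k := by
  intro x y hxy m hm
  have := hm.map φ.symm
  exact h _ _ (fun h => hxy (φ.symm.injective h)) m this

end Pool.Agent.LocalConn
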