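import Pool.Agent.LocalConn.Glue

/-!
The block: `N` cliques on `c` vertices, and one further vertex for every pair of cliques, joined
to all vertices of both cliques.
-/

namespace Pool.Agent.LocalConn

open SimpleGraph

/-- The pairs of nodes. -/
abbrev Hi (N : ℕ) := {e : Sym2 (Fin N) // ¬ e.IsDiag}

/-- Vertices of the block. -/
abbrev Blk (N c : ℕ) := (Fin N × Fin c) ⊕ Hi N

/-- The block. -/
def blk (N c : ℕ) : SimpleGraph (Blk N c) where
  Adj x y := match x, y with
    | Sum.inl x, Sum.inl y => x.1 = y.1 ∧ x.2 ≠ y.2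
    | Sum.inl x, Sum.inr e => x.1 ∈ e.1
    | Sum.inr e, Sum.inl x => x.1 ∈ e.1
    | Sum.inr _, Sum.inr _ => False
  symm := ⟨by
    intro x y h
    rcases x with x | x <;> rcases y with y | y <;> simp only at h ⊢
    · exact ⟨h.1.symm, h.2.symm⟩
    · exact h
    · exact h⟩
  loopless := ⟨by
    intro x h
    rcases x with x | x <;> simp at h⟩

/-- The high vertices at a node. -/
def atNode {N : ℕ} (u : Fin N) : Finset (Hi N) := Finset.univ.filter (fun e => u ∈ e.1)

theorem card_atNode_le {N : ℕ} (u : Fin N) : (atNode u).card ≤ N - 1 := by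
  classical
  let g : {w : Fin N // w ≠ u} → Hi N := fun w => ⟨s(u, w.1), by
    rw [Sym2.mk_isDiag_iff]; exact fun h => w.2 h.symm⟩
  have h1 : atNode u ⊆ Finset.univ.image g := by
    rintro ⟨e, he⟩ hmem
    have hu : u ∈ e := by simpa [atNode] using hmem
    obtain ⟨w, rfl⟩ := hu
    have hw : w ≠ u := by
      intro h; apply he; rw [h]; simp
    exact Finset.mem_image.2 ⟨⟨w, hw⟩, Finset.mem_univ _, rfl⟩
  calc (atNode u).card ≤ (Finset.univ.image g).card := Finset.card_le_card h1
    _ ≤ (Finset.univ : Finset {w : Fin N // w ≠ u}).card := Finset.card_image_le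
    _ = N - 1 := by simp

theorem card_Hi (N : ℕ) : Fintype.card (Hi N) = N.choose 2 := by
  rw [Sym2.card_subtype_not_diag, Fintype.card_fin]

theorem card_Blk (N c : ℕ) : Fintype.card (Blk N c) = N * c + N.choose 2 := by
  simp only [Blk, Fintype.card_sum, Fintype.card_prod, Fintype.card_fin, card_Hi]

theorem blk_lowDeg {N c k : ℕ} (hk : c - 1 + (N - 1) ≤ k) (u : Fin N) (i : Fin c) :
    LowDeg (blk N c) k (Sum.inl (u, i)) := by
  classical
  refine ⟨((Finset.univ.erase i).image (fun j => (Sum.inl (u, j) : Blk N c))) ∪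
    ((atNode u).image Sum.inr), ?_, ?_⟩
  · refine (Finset.card_union_le _ _).trans ?_
    refine (add_le_add Finset.card_image_le Finset.card_image_le).trans ?_
    have := card_atNode_le u
    rw [Finset.card_erase_of_mem (Finset.mem_univ i)]
    simp only [Finset.card_univ, Fintype.card_fin]
    omega
  · rintro (⟨w, j⟩ | e) hv
    · obtain ⟨h1, h2⟩ : u = w ∧ i ≠ j := hv
      subst h1
      simp [h2.symm]
    · have h1 : u ∈ e.1 := hv
      simp [atNode, h1]

theorem blk_sep {N c k : ℕ} (h1 : c + (N - 2) ≤ k) (h2 : 2 * (N - 2) ≤ k) (e e' : Hi N)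
    (hne : e ≠ e') : SepBy (blk N c) k (Sum.inr e) (Sum.inr e') := by
  classical
  have hcard : ∀ (v : Fin N) (f : Hi N), v ∈ f.1 → ((atNode v).erase f).card ≤ N - 2 := by
    intro v f hf
    rw [Finset.card_erase_of_mem (by simpa [atNode] using hf)]
    have := card_atNode_le v
    omega
  by_cases hsh : ∃ u, u ∈ e.1 ∧ u ∈ e'.1
  · obtain ⟨u, hu, hu'⟩ := hsh
    obtain ⟨v, hv⟩ := hu
    obtain ⟨w, hw⟩ := hu'
    have huv : v ≠ u := by
      intro h; apply e.2; rw [hv, h]; simp
    have huw : w ≠ u := by
      intro h; apply e'.2; rw [hw, h]; simp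
    have hvw : v ≠ w := by
      intro h; apply hne; apply Subtype.ext; rw [hv, hw, h]
    have hve : v ∈ e.1 := by rw [hv]; simp
    have hve' : v ∉ e'.1 := by
      rw [hw]; simp [huv, hvw]
    refine ⟨{x | x = Sum.inr e ∨ ∃ i, x = Sum.inl (v, i)},
      (Finset.univ.image (fun i : Fin c => (Sum.inl (u, i) : Blk N c))) ∪
        (((atNode v).erase e).image Sum.inr), ?_, Or.inl rfl, ?_, ?_, ?_, ?_⟩
    · refine (Finset.card_union_le _ _).trans ?_
      refine (add_le_add Finset.card_image_le Finset.card_image_le).trans ?_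
      have := hcard v e hve
      simp only [Finset.card_univ, Fintype.card_fin]
      omega
    · rintro (h | ⟨i, h⟩)
      · exact hne (by simpa using h.symm)
      · simp at h
    · simp
    · intro h
      have : e' ∈ (atNode v).erase e := by simpa using h
      have h3 := Finset.mem_of_mem_erase this
      exact hve' (by simpa [atNode] using h3)
    · rintro x (rfl | ⟨i, rfl⟩) y hy
      · rcases y with ⟨z, j⟩ | f
        · have h3 : z ∈ e.1 := hy
          rw [hv, Sym2.mem_iff] at h3
          rcases h3 with rfl | rfl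
          · right; simp
          · left; right; exact ⟨j, rfl⟩
        · exact absurd hy (by simp [blk])
      · rcases y with ⟨z, j⟩ | f
        · obtain ⟨h3, h4⟩ : v = z ∧ i ≠ j := hy
          subst h3
          left; right; exact ⟨j, rfl⟩
        · have h3 : v ∈ f.1 := hy
          by_cases hfe : f = e
          · left; left; rw [hfe]
          · right
            simp [atNode, h3, hfe]
  · push Not at hsh
    obtain ⟨u, v, huv0⟩ : ∃ u v, e.1 = s(u, v) := by
      obtain ⟨e, he⟩ := e
      induction e with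
      | h u v => exact ⟨u, v, rfl⟩
    have hue : u ∈ e.1 := by rw [huv0]; simp
    have hve : v ∈ e.1 := by rw [huv0]; simp
    refine ⟨{x | x = Sum.inr e ∨ (∃ i, x = Sum.inl (u, i)) ∨ ∃ i, x = Sum.inl (v, i)},
      (((atNode u).erase e).image Sum.inr) ∪ (((atNode v).erase e).image Sum.inr),
      ?_, Or.inl rfl, ?_, ?_, ?_, ?_⟩
    · refine (Finset.card_union_le _ _).trans ?_
      refine (add_le_add Finset.card_image_le Finset.card_image_le).trans ?_
      have := hcard v e hve
      have := hcard u e hue
      omega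
    · rintro (h | ⟨i, h⟩ | ⟨i, h⟩)
      · exact hne (by simpa using h.symm)
      · simp at h
      · simp at h
    · simp
    · intro h
      rcases Finset.mem_union.1 h with h | h
      · have : e' ∈ (atNode u).erase e := by simpa using h
        have h3 := Finset.mem_of_mem_erase this
        exact hsh u hue (by simpa [atNode] using h3)
      · have : e' ∈ (atNode v).erase e := by simpa using h
        have h3 := Finset.mem_of_mem_erase this
        exact hsh v hve (by simpa [atNode] using h3)
    · rintro x (rfl | ⟨i, rfl⟩ | ⟨i, rfl⟩) y hy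
      · rcases y with ⟨z, j⟩ | f
        · have h3 : z ∈ e.1 := hy
          rw [huv0, Sym2.mem_iff] at h3
          rcases h3 with rfl | rfl
          · left; right; left; exact ⟨j, rfl⟩
          · left; right; right; exact ⟨j, rfl⟩
        · exact absurd hy (by simp [blk])
      · rcases y with ⟨z, j⟩ | f
        · obtain ⟨h3, h4⟩ : u = z ∧ i ≠ j := hy
          subst h3
          left; right; left; exact ⟨j, rfl⟩
        · have h3 : u ∈ f.1 := hy
          by_cases hfe : f = e
          · left; left; rw [hfe]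
          · right
            simp [atNode, h3, hfe]
      · rcases y with ⟨z, j⟩ | f
        · obtain ⟨h3, h4⟩ : v = z ∧ i ≠ j := hy
          subst h3
          left; right; right; exact ⟨j, rfl⟩
        · have h3 : v ∈ f.1 := hy
          by_cases hfe : f = e
          · left; left; rw [hfe]
          · right
            simp [atNode, h3, hfe]

instance (N c : ℕ) : DecidableRel (blk N c).Adj := by
  intro x y
  rcases x with x | x <;> rcases y with y | y <;> simp only [blk] <;> infer_instance

theorem blk_card_dart (N c : ℕ) :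
    N * (c * c - c) + 2 * (c * (N * N - N)) ≤ Fintype.card (blk N c).Dart := by
  classical
  let P (m : ℕ) := {p : Fin m × Fin m // p ∈ (Finset.univ : Finset (Fin m)).offDiag}
  have hP : ∀ m, Fintype.card (P m) = m * m - m := by
    intro m
    rw [Fintype.card_coe, Finset.offDiag_card]; simp
  have hPne : ∀ {m} (p : P m), p.1.1 ≠ p.1.2 := by
    intro m p; exact (Finset.mem_offDiag.1 p.2).2.2
  let hi : P N → Hi N := fun p => ⟨s(p.1.1, p.1.2), by
    rw [Sym2.mk_isDiag_iff]; exact hPne p⟩
  let f : (Fin N × P c) ⊕ ((Fin c × P N) ⊕ (Fin c × P N)) → (blk N c).Dart := fun x =>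
    match x with
    | Sum.inl (u, p) => ⟨(Sum.inl (u, p.1.1), Sum.inl (u, p.1.2)), ⟨rfl, hPne p⟩⟩
    | Sum.inr (Sum.inl (i, p)) => ⟨(Sum.inl (p.1.1, i), Sum.inr (hi p)), by
        change p.1.1 ∈ (hi p).1; simp [hi]⟩
    | Sum.inr (Sum.inr (i, p)) => ⟨(Sum.inr (hi p), Sum.inl (p.1.1, i)), by
        change p.1.1 ∈ (hi p).1; simp [hi]⟩
  have hhi : ∀ p p' : P N, p.1.1 = p'.1.1 → hi p = hi p' → p = p' := by
    rintro ⟨⟨a, b⟩, hp⟩ ⟨⟨a', b'⟩, hp'⟩ h1 h2
    simp only at h1
    subst h1
    have h3 : s(a, b) = s(a, b') := congrArg Subtype.val h2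
    have : b = b' := Sym2.congr_right.1 h3
    subst this; rfl
  have hf : Function.Injective f := by
    rintro (⟨u, p⟩ | ⟨i, p⟩ | ⟨i, p⟩) (⟨u', p'⟩ | ⟨i', p'⟩ | ⟨i', p'⟩) h <;>
      have h1 := congrArg (fun d : (blk N c).Dart => d.fst) h <;>
      have h2 := congrArg (fun d : (blk N c).Dart => d.snd) h <;>
      simp only [f] at h1 h2
    · obtain ⟨hu, ha⟩ : u = u' ∧ p.1.1 = p'.1.1 := by simpa using h1
      obtain ⟨-, hb⟩ : u = u' ∧ p.1.2 = p'.1.2 := by simpa using h2
      have : p = p' := Subtype.ext (Prod.ext ha hb)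
      rw [hu, this]
    · exact absurd h2 (by simp)
    · exact absurd h1 (by simp)
    · exact absurd h2 (by simp)
    · obtain ⟨ha, hi'⟩ : p.1.1 = p'.1.1 ∧ i = i' := by simpa using h1
      have hb : hi p = hi p' := by simpa using h2
      rw [hi', hhi p p' ha hb]
    · exact absurd h1 (by simp)
    · exact absurd h1 (by simp)
    · exact absurd h1 (by simp)
    · obtain ⟨ha, hi'⟩ : p.1.1 = p'.1.1 ∧ i = i' := by simpa using h2
      have hb : hi p = hi p' := by simpa using h1
      rw [hi', hhi p p' ha hb]
  have := Fintype.card_le_of_injective f hf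
  simp only [Fintype.card_sum, Fintype.card_prod, Fintype.card_fin, hP] at this
  omega

end Pool.Agent.LocalConn
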