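import Pool.Agent.LocalConn.Basic

/-!
Gluing `t` copies of a graph `H` along one vertex `r`, plus `q` isolated vertices.
-/

namespace Pool.Agent.LocalConn

open SimpleGraph

universe u

variable {B : Type u} [DecidableEq B]

/-- Vertices of the glued graph. -/
abbrev GV (B : Type u) (r : B) (t q : ℕ) : Type u := Option (Fin t × {b : B // b ≠ r}) ⊕ Fin q

/-- Adjacency on the glued part. -/
def glueAdj (H : SimpleGraph B) (r : B) (t : ℕ) :
    Option (Fin t × {b : B // b ≠ r}) → Option (Fin t × {b : B // b ≠ r}) → Prop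
  | none, none => False
  | none, some y => H.Adj r y.2.1
  | some x, none => H.Adj x.2.1 r
  | some x, some y => x.1 = y.1 ∧ H.Adj x.2.1 y.2.1

/-- The glued graph. -/
def glue (H : SimpleGraph B) (r : B) (t q : ℕ) : SimpleGraph (GV B r t q) where
  Adj x y := match x, y with
    | Sum.inl x, Sum.inl y => glueAdj H r t x y
    | _, _ => False
  symm := ⟨by
    intro x y h
    rcases x with (_ | x) | x <;> rcases y with (_ | y) | y <;> simp only [glueAdj] at h ⊢
    · exact h.symm
    · exact h.symm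
    · exact ⟨h.1.symm, h.2.symm⟩⟩
  loopless := ⟨by
    intro x h
    rcases x with (_ | x) | x <;> simp [glueAdj] at h⟩

/-- The copy map. -/
def cp (r : B) (t q : ℕ) (s : Fin t) (b : B) : GV B r t q :=
  if h : b = r then Sum.inl none else Sum.inl (some (s, ⟨b, h⟩))

theorem cp_r (r : B) (t q : ℕ) (s : Fin t) : cp r t q s r = Sum.inl none := by simp [cp]

theorem cp_ne (r : B) (t q : ℕ) (s : Fin t) {b : B} (h : b ≠ r) :
    cp r t q s b = Sum.inl (some (s, ⟨b, h⟩)) := by simp [cp, h]

theorem cp_inj (r : B) (t q : ℕ) (s : Fin t) : Function.Injective (cp r t q s) := by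
  intro a b h
  by_cases ha : a = r <;> by_cases hb : b = r
  · rw [ha, hb]
  · rw [ha, cp_r, cp_ne _ _ _ _ hb] at h; simp at h
  · rw [hb, cp_r, cp_ne _ _ _ _ ha] at h; simp at h
  · rw [cp_ne _ _ _ _ ha, cp_ne _ _ _ _ hb] at h; simpa using h

theorem glue_adj_cp (H : SimpleGraph B) (r : B) (t q : ℕ) (s : Fin t) (a b : B) :
    (glue H r t q).Adj (cp r t q s a) (cp r t q s b) ↔ H.Adj a b := by
  by_cases ha : a = r <;> by_cases hb : b = r
  · rw [ha, hb, cp_r]; simp [glue, glueAdj]
  · rw [ha, cp_r, cp_ne _ _ _ _ hb]; simp [glue, glueAdj]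
  · rw [hb, cp_r, cp_ne _ _ _ _ ha]; simp [glue, glueAdj]
  · rw [cp_ne _ _ _ _ ha, cp_ne _ _ _ _ hb]; simp [glue, glueAdj]

/-- Every neighbour of a nonroot copy vertex lies in the same copy. -/
theorem glue_adj_some (H : SimpleGraph B) (r : B) (t q : ℕ) (s : Fin t) (b : {b : B // b ≠ r})
    (v : GV B r t q) (h : (glue H r t q).Adj (Sum.inl (some (s, b))) v) :
    ∃ b', v = cp r t q s b' ∧ H.Adj b.1 b' := by
  rcases v with (_ | ⟨s', b'⟩) | v
  · exact ⟨r, (cp_r _ _ _ _).symm, h⟩
  · obtain ⟨h1, h2⟩ : s = s' ∧ H.Adj b.1 b'.1 := h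
    subst h1
    exact ⟨b'.1, (cp_ne _ _ _ _ b'.2).symm, h2⟩
  · exact absurd h (by simp [glue])

theorem glue_lowDeg {H : SimpleGraph B} {r : B} {t q k : ℕ} {s : Fin t} {b : B} (hb : b ≠ r)
    (h : LowDeg H k b) : LowDeg (glue H r t q) k (cp r t q s b) := by
  obtain ⟨S, hS, hN⟩ := h
  classical
  refine ⟨S.image (cp r t q s), Finset.card_image_le.trans hS, ?_⟩
  intro v hv
  rw [cp_ne _ _ _ _ hb] at hv
  obtain ⟨b', rfl, hb'⟩ := glue_adj_some H r t q s ⟨b, hb⟩ v hv
  exact Finset.mem_image_of_mem _ (hN b' hb')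

theorem glue_sepBy {H : SimpleGraph B} {r : B} {t q k : ℕ} {s : Fin t} {a b : B}
    (h : SepBy H k a b) : SepBy (glue H r t q) k (cp r t q s a) (cp r t q s b) := by
  classical
  obtain ⟨A, S, hS, ha, hb, haS, hbS, hA⟩ := h
  -- A' : the copy of A, together with all other copies if `r ∈ A`
  refine ⟨{v | (∃ c ∈ A, v = cp r t q s c) ∨
      (r ∈ A ∧ ∃ (s' : Fin t) (c : {b : B // b ≠ r}), s' ≠ s ∧ v = Sum.inl (some (s', c)))},
      S.image (cp r t q s), Finset.card_image_le.trans hS, Or.inl ⟨a, ha, rfl⟩, ?_, ?_, ?_, ?_⟩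
  · rintro (⟨c, hc, hbc⟩ | ⟨hr, s', c, hs', hbc⟩)
    · exact hb (cp_inj _ _ _ _ hbc ▸ hc)
    · by_cases hbr : b = r
      · rw [hbr, cp_r] at hbc; simp at hbc
      · rw [cp_ne _ _ _ _ hbr] at hbc
        simp only [Sum.inl.injEq, Option.some.injEq, Prod.mk.injEq] at hbc
        exact hs' hbc.1.symm
  · intro h
    obtain ⟨c, hc, hc'⟩ := Finset.mem_image.1 h
    exact haS (cp_inj _ _ _ _ hc' ▸ hc)
  · intro h
    obtain ⟨c, hc, hc'⟩ := Finset.mem_image.1 h
    exact hbS (cp_inj _ _ _ _ hc' ▸ hc)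
  · rintro u (⟨c, hc, rfl⟩ | ⟨hr, s', c, hs', rfl⟩) v hv
    · by_cases hcr : c = r
      · -- u is the root
        subst hcr
        rw [cp_r] at hv
        rcases v with (_ | ⟨s'', b'⟩) | v
        · exact absurd hv (by simp [glue, glueAdj])
        · have h1 : H.Adj c b'.1 := hv
          by_cases hs : s'' = s
          · subst hs
            rcases hA c hc _ h1 with h2 | h2
            · exact Or.inl (Or.inl ⟨b'.1, h2, (cp_ne _ _ _ _ b'.2).symm⟩)
            · right
              exact Finset.mem_image.2 ⟨b'.1, h2, cp_ne _ _ _ _ b'.2⟩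
          · exact Or.inl (Or.inr ⟨hc, s'', b', hs, rfl⟩)
        · exact absurd hv (by simp [glue])
      · rw [cp_ne _ _ _ _ hcr] at hv
        obtain ⟨b', rfl, hb'⟩ := glue_adj_some H r t q s ⟨c, hcr⟩ v hv
        rcases hA c hc _ hb' with h2 | h2
        · exact Or.inl (Or.inl ⟨b', h2, rfl⟩)
        · exact Or.inr (Finset.mem_image_of_mem _ h2)
    · obtain ⟨b', rfl, hb'⟩ := glue_adj_some H r t q s' c v hv
      by_cases hbr : b' = r
      · subst hbr
        left; left
        exact ⟨b', hr, by rw [cp_r, cp_r]⟩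
      · left; right
        exact ⟨hr, s', ⟨b', hbr⟩, hs', cp_ne _ _ _ _ hbr⟩

/-- Gluing preserves the separation criterion. -/
theorem glue_sep {H : SimpleGraph B} {r : B} {k : ℕ} (hk : 1 ≤ k)
    (h : ∀ x y, x ≠ y → (x ≠ r ∧ LowDeg H k x) ∨ (y ≠ r ∧ LowDeg H k y) ∨ SepBy H k x y)
    (t q : ℕ) : LocalConnLe (glue H r t q) k := by
  classical
  apply localConnLe_of_sep
  have key : ∀ (s : Fin t) (a b : B), a ≠ b → LowDeg (glue H r t q) k (cp r t q s a) ∨
      LowDeg (glue H r t q) k (cp r t q s b) ∨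
      SepBy (glue H r t q) k (cp r t q s a) (cp r t q s b) := by
    intro s a b hab
    rcases h a b hab with ⟨h1, h2⟩ | ⟨h1, h2⟩ | h1
    · exact Or.inl (glue_lowDeg h1 h2)
    · exact Or.inr (Or.inl (glue_lowDeg h1 h2))
    · exact Or.inr (Or.inr (glue_sepBy h1))
  intro x y hxy
  rcases x with (_ | ⟨s, a⟩) | x
  · rcases y with (_ | ⟨s', b⟩) | y
    · exact absurd rfl hxy
    · have := key s' r b.1 b.2.symm
      rwa [cp_r, cp_ne _ _ _ _ b.2] at this
    · right; left
      exact ⟨∅, by simp, fun v hv => absurd hv (by rcases v with v | v <;> simp [glue])⟩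
  · rcases y with (_ | ⟨s', b⟩) | y
    · have := key s a.1 r a.2
      rwa [cp_r, cp_ne _ _ _ _ a.2] at this
    · by_cases hs : s = s'
      · subst hs
        have hab : a.1 ≠ b.1 := by
          intro h; apply hxy; rw [Subtype.ext h]
        have := key s a.1 b.1 hab
        rwa [cp_ne _ _ _ _ a.2, cp_ne _ _ _ _ b.2] at this
      · right; right
        refine ⟨{v | ∃ c : {b : B // b ≠ r}, v = Sum.inl (some (s, c))}, {Sum.inl none},
          by simpa using hk, ⟨a, rfl⟩, ?_, by simp, by simp, ?_⟩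
        · rintro ⟨c, hc⟩
          simp only [Sum.inl.injEq, Option.some.injEq, Prod.mk.injEq] at hc
          exact hs hc.1.symm
        · rintro u ⟨c, rfl⟩ v hv
          obtain ⟨b', rfl, hb'⟩ := glue_adj_some H r t q s c v hv
          by_cases hbr : b' = r
          · right; rw [hbr, cp_r]; simp
          · left; exact ⟨⟨b', hbr⟩, cp_ne _ _ _ _ hbr⟩
    · right; left
      exact ⟨∅, by simp, fun v hv => absurd hv (by rcases v with v | v <;> simp [glue])⟩
  · left
    exact ⟨∅, by simp, fun v hv => absurd hv (by simp [glue])⟩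

/-- Counting edges of the glued graph. -/
theorem glue_card_dart [Fintype B] (H : SimpleGraph B) (r : B) (t q : ℕ)
    [DecidableRel H.Adj] [DecidableRel (glue H r t q).Adj] :
    t * Fintype.card H.Dart ≤ Fintype.card (glue H r t q).Dart := by
  let f : Fin t × H.Dart → (glue H r t q).Dart := fun x =>
    ⟨(cp r t q x.1 x.2.fst, cp r t q x.1 x.2.snd), (glue_adj_cp H r t q x.1 _ _).2 x.2.adj⟩
  have hf : Function.Injective f := by
    rintro ⟨s, d⟩ ⟨s', d'⟩ h
    have h1 : cp r t q s d.fst = cp r t q s' d'.fst := by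
      have := congrArg (fun x : (glue H r t q).Dart => x.fst) h
      simpa [f] using this
    have h2 : cp r t q s d.snd = cp r t q s' d'.snd := by
      have := congrArg (fun x : (glue H r t q).Dart => x.snd) h
      simpa [f] using this
    have hs : s = s' := by
      by_cases hd : d.fst = r
      · have hd2 : d.snd ≠ r := fun h => d.adj.ne (hd.trans h.symm)
        rw [cp_ne _ _ _ _ hd2] at h2
        by_cases hd3 : d'.snd = r
        · rw [hd3, cp_r] at h2; simp at h2
        · rw [cp_ne _ _ _ _ hd3] at h2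
          simp only [Sum.inl.injEq, Option.some.injEq, Prod.mk.injEq] at h2
          exact h2.1
      · rw [cp_ne _ _ _ _ hd] at h1
        by_cases hd3 : d'.fst = r
        · rw [hd3, cp_r] at h1; simp at h1
        · rw [cp_ne _ _ _ _ hd3] at h1
          simp only [Sum.inl.injEq, Option.some.injEq, Prod.mk.injEq] at h1
          exact h1.1
    subst hs
    have e1 := cp_inj _ _ _ _ h1
    have e2 := cp_inj _ _ _ _ h2
    have : d = d' := by
      apply Dart.ext
      exact Prod.ext e1 e2
    rw [this]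
  have := Fintype.card_le_of_injective f hf
  simpa using this

theorem card_GV [Fintype B] (r : B) (t q : ℕ) :
    Fintype.card (GV B r t q) = t * (Fintype.card B - 1) + 1 + q := by
  have : Fintype.card {b : B // b ≠ r} = Fintype.card B - 1 := by
    rw [Fintype.card_subtype_compl (fun b => b = r)]
    simp
  simp [GV, this]

end Pool.Agent.LocalConn
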